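import Pool.Agent.T9h98.NK.SpecS

set_option autoImplicit false

/-!
# Project NK, pieces REL and WALK
-/

open Set
open scoped RealInnerProductSpace

namespace Pool.Agent.T9h80.NK

open Pool.Agent.T9h98.DC Pool.Agent.T9h44.NK Pool.Agent.T9h98.NK

theorem cor_symm {d : ℕ} {P : Set (E d)} {v w y : E d} (h : Cor P v w y) : Cor P v y w := by
  obtain ⟨h1, h2, h3, T, h4, h5, h6, h7, h8⟩ := h
  exact ⟨h2, h1, h3.symm, T, h4, h5, h6, h8, h7⟩

theorem rel (hE : S_EDGE) : S_REL := by
  intro D P g e hg hP hU v w y hc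
  obtain ⟨z, hz, ⟨α, β, hα, hβ, hzv⟩, -⟩ := hE D P hP v w y hc
  obtain ⟨he, hg1, hlen, hang⟩ := hU
  have lp : ‖w - v‖ = e := hlen v w hc.1
  have lq : ‖y - v‖ = e := hlen v y hc.2.1
  have lz : ‖z - w‖ = e := hlen w z hz.2.1
  have apq : ⟪w - v, y - v⟫ = g * e ^ 2 := hang v w y hc
  have az : ⟪v - w, z - w⟫ = g * e ^ 2 := hang w v z hz
  set p := w - v with hp
  set q := y - v with hq
  have ezw : z - w = (α - 1) • p + β • q := by
    have h1 : z - w = (z - v) - p := by rw [hp]; abel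
    rw [h1, hzv, sub_smul, one_smul]
    abel
  have evw : v - w = -p := by rw [hp]; abel
  have npp : ⟪p, p⟫ = e ^ 2 := by rw [real_inner_self_eq_norm_sq, lp]
  have nqq : ⟪q, q⟫ = e ^ 2 := by rw [real_inner_self_eq_norm_sq, lq]
  have he2 : (0 : ℝ) < e ^ 2 := by positivity
  have k1 : α - 1 = -(g * (1 + β)) := by
    rw [evw, ezw, inner_neg_left, inner_add_right, inner_smul_right, inner_smul_right, npp,
      apq] at az
    have h2 : ((α - 1) + g * (1 + β)) * e ^ 2 = 0 := by linear_combination -az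
    rcases mul_eq_zero.1 h2 with h3 | h3
    · linarith
    · exact absurd h3 he2.ne'
  have k2 : (α - 1) ^ 2 + 2 * (α - 1) * β * g + β ^ 2 = 1 := by
    have h1 : ⟪z - w, z - w⟫ = e ^ 2 := by rw [real_inner_self_eq_norm_sq, lz]
    rw [ezw, inner_add_left, inner_add_right, inner_add_right, inner_smul_left, inner_smul_left,
      inner_smul_left, inner_smul_left, inner_smul_right, inner_smul_right, inner_smul_right,
      inner_smul_right, npp, nqq, apq, real_inner_comm p q, apq] at h1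
    simp only [conj_trivial] at h1
    have h2 : ((α - 1) ^ 2 + 2 * (α - 1) * β * g + β ^ 2 - 1) * e ^ 2 = 0 := by
      linear_combination h1
    rcases mul_eq_zero.1 h2 with h3 | h3
    · linarith
    · exact absurd h3 he2.ne'
  have k3 : β = 1 := by
    rw [k1] at k2
    have h2 : (1 + β) * ((1 - β) * (g ^ 2 - 1)) = 0 := by linear_combination k2
    have h3 : (1 + β) ≠ 0 := by positivity
    rcases mul_eq_zero.1 ((mul_eq_zero.1 h2).resolve_left h3) with h4 | h4
    · linarith
    · exfalso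
      have h5 : g ^ 2 < 1 := by
        rw [sq_lt_one_iff_abs_lt_one, abs_lt]
        exact ⟨hg, hg1⟩
      linarith
  have k4 : α = 1 - 2 * g := by
    rw [k3] at k1
    linarith
  have ez : z = y + (1 - 2 * g) • p := by
    have h1 : z = v + (α • p + β • q) := by rw [← hzv]; abel
    rw [h1, k3, k4, one_smul, hq]
    abel
  rw [← ez, ← k4]
  exact ⟨hz, hα⟩

theorem adj_mem {d : ℕ} {P : Set (E d)} {v w : E d} (h : Adj P v w) : w ∈ P :=
  h.2.2.subset (right_mem_segment ℝ v w)

theorem walk (hR : S_REL) (hPl : S_PLANE) : S_WALK := by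
  intro D P g e hP hg hU hex
  obtain ⟨v, w, y, hc⟩ := hex
  have hg1 : (-1 : ℝ) < g := by linarith
  obtain ⟨c1, hk⟩ := hR D P g e hg1 hP hU v w y hc
  rcases eq_or_lt_of_le hk with h0 | hk0
  · left; linarith
  right
  have cone := (hPl D P hP v w y hc).2
  obtain ⟨c2, -⟩ := hR D P g e hg1 hP hU _ _ _ (cor_symm c1)
  obtain ⟨c3, -⟩ := hR D P g e hg1 hP hU _ _ _ (cor_symm c2)
  have m3 := adj_mem c2.2.1
  have m4 := adj_mem c3.2.1
  have e3 := cone _ m3 (-(2 * g) * (1 - 2 * g)) (1 - 2 * g) (by module)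
  have e4 := cone _ m4 (2 * g * (1 + 2 * g - 4 * g ^ 2)) (-(2 * g) * (1 - 2 * g)) (by module)
  have g0 : g ≤ 0 := by
    by_contra hc2
    push Not at hc2
    nlinarith [e3.1, mul_pos hc2 hk0]
  have g1 : 0 ≤ g := by
    by_contra hc2
    push Not at hc2
    have h5 : 0 < 1 + 2 * g - 4 * g ^ 2 := by nlinarith
    nlinarith [e4.1, mul_pos (neg_pos.2 hc2) h5]
  linarith

end Pool.Agent.T9h80.NK
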