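import Pool.Agent.T9h44.NK.Abs4

set_option autoImplicit false

namespace Pool.Agent.T9h80.NK

open Pool.Agent.T9h44.NK

theorem x2 : S_X2 := by
  intro a b e N q hN hq0 hq1 hab h1 h2
  have ha0 : (0:ℝ) ≤ a := Nat.cast_nonneg a
  have he0 : (0:ℝ) ≤ e := Nat.cast_nonneg e
  have haq : 0 ≤ (a:ℝ) * q := mul_nonneg ha0 hq0.le
  have hb1 : 1 ≤ b := by
    rcases Nat.eq_zero_or_pos b with h | h
    · exfalso
      subst h
      norm_num at h2
      have : 0 ≤ (e:ℝ) * (1 - q) := mul_nonneg he0 (by linarith)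
      nlinarith
    · exact h
  have hbr : (1:ℝ) ≤ b := by exact_mod_cast hb1
  -- the defect
  have h3 : (b:ℝ) ^ 2 * (1 - 2 * q) ^ 2 ≤ (1 + a * q) ^ 2 := by
    rw [← mul_pow]
    exact pow_le_pow_left₀ (mul_nonneg (by linarith) (by linarith)) h1 2
  have h4 : ((e:ℝ) - b + b ^ 2 * (1 - 4 * q)) * (1 - q) ≤ 0 := by nlinarith
  have h5 : (e:ℝ) - b + b ^ 2 * (1 - 4 * q) ≤ 0 := by
    by_contra hcon
    push Not at hcon
    have := mul_pos hcon (by linarith : (0:ℝ) < 1 - q)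
    linarith
  have h6 : (0:ℝ) < b ^ 2 * (1 - 4 * q) := mul_pos (by positivity) (by linarith)
  have heb : e < b := by
    have : (e:ℝ) < b := by linarith
    exact_mod_cast this
  have h7 : (b:ℝ) * (1 - 4 * q) ≤ 1 := by
    by_contra hcon
    push Not at hcon
    nlinarith
  -- upper bound of t
  have h8 : (1 + a * q) ^ 2 ≤ ((b:ℝ) / 2 + 3 / 4) ^ 2 := by
    have h9 : 0 ≤ (e:ℝ) * (1 - q) := mul_nonneg he0 (by linarith)
    have h10 : 0 ≤ ((b:ℝ) ^ 2 - b) * (1 / 4 - q) :=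
      mul_nonneg (by nlinarith) (by linarith)
    nlinarith
  have h9 : 1 + (a:ℝ) * q ≤ b / 2 + 3 / 4 := abs_le_of_sq_le_sq' h8 (by linarith) |>.2
  -- b = 1 is impossible
  have hb2 : 2 ≤ b := by
    by_contra hcon
    have hb : b = 1 := by omega
    subst hb
    have h10 : 0 ≤ (e:ℝ) * (1 - q) := mul_nonneg he0 (by linarith)
    norm_num at h2
    have h11 : (a:ℝ) * q ≤ 0 := by nlinarith
    have h12 : (1:ℝ) ≤ a := by
      have : 1 ≤ a := by omega
      exact_mod_cast this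
    nlinarith
  have hb2r : (2:ℝ) ≤ b := by exact_mod_cast hb2
  have hq8 : 1 / 8 ≤ q := by nlinarith
  have h10 : (a:ℝ) ≤ 4 * b - 2 := by nlinarith
  have h10' : a + 2 ≤ 4 * b := by
    have : (a:ℝ) + 2 ≤ 4 * b := by linarith
    exact_mod_cast this
  have hb61 : 61 ≤ b := by omega
  have hb61r : (61:ℝ) ≤ b := by exact_mod_cast hb61
  have h11 : (a:ℝ) * (b - 1) ≤ 2 * b ^ 2 - b := by
    have h12 : (b:ℝ) - 1 ≤ 4 * b * q := by linarith
    have h13 : (a:ℝ) * (b - 1) ≤ a * (4 * b * q) := mul_le_mul_of_nonneg_left h12 ha0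
    have h14 : (a:ℝ) * (4 * b * q) = 4 * b * (a * q) := by ring
    have h15 : 4 * (b:ℝ) * (a * q) ≤ 4 * b * (b / 2 - 1 / 4) :=
      mul_le_mul_of_nonneg_left (by linarith) (by linarith)
    nlinarith
  have h12 : a ≤ 2 * b + 1 := by
    by_contra hcon
    have h13 : 2 * b + 2 ≤ a := by omega
    have h14 : (2:ℝ) * b + 2 ≤ a := by exact_mod_cast h13
    nlinarith
  have h13 : (2:ℝ) * b - 4 < a := by
    have h14 : (b:ℝ) / 2 - 1 < a * q := by nlinarith
    nlinarith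
  have h14 : 2 * b < a + 4 := by
    have : (2:ℝ) * b < a + 4 := by linarith
    exact_mod_cast this
  refine ⟨by omega, heb, h12, by omega, by omega, h9⟩

end Pool.Agent.T9h80.NK
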